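import Pool.Agent.Work.MP_e8d052_lc.Main

namespace Pool.Agent.Results.MP_e8d052_lc.Undecidable

open Pool.Agent.Work.MP_e8d052_lc

/-- The set of acceptable formulae is not decidable: no computable function decides, given the
Goedel number of a formula, whether the formula is acceptable. -/
theorem result :
    ¬ ∃ f : ℕ → Bool, Computable f ∧ ∀ φ : Fml, (f φ.code = true ↔ Acceptable φ) :=
  acceptable_undecidable

end Pool.Agent.Results.MP_e8d052_lc.Undecidable
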